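import Mathlib

set_option autoImplicit false

namespace Pool.Agent.Results.MP_05a6d5_al.NotMultiplicative

/-- A commutative semiring is zerosumfree if `a + b = 0` implies `a = b = 0`. -/
def Zerosumfree (S : Type) [CommSemiring S] : Prop := ∀ a b : S, a + b = 0 → a = 0 ∧ b = 0

/-- An ideal `I` is subtractive if `x ∈ I` and `x + y ∈ I` imply `y ∈ I`. -/
def Subtractive {S : Type} [CommSemiring S] (I : Ideal S) : Prop :=
  ∀ x y : S, x ∈ I → x + y ∈ I → y ∈ I

/-- The subtractive closure: the smallest subtractive ideal containing `I`. -/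
def scl {S : Type} [CommSemiring S] (I : Ideal S) : Ideal S :=
  sInf {K : Ideal S | Subtractive K ∧ I ≤ K}

open MvPolynomial

/-- substitute `X ↦ X`, `Y, Z ↦ 0` -/
noncomputable def phi : MvPolynomial (Fin 3) ℕ →+* Polynomial ℕ :=
  (MvPolynomial.aeval (fun i : Fin 3 => if i = 0 then (Polynomial.X : Polynomial ℕ) else 0)).toRingHom

/-- evaluate at `-1` -/
noncomputable def psi : Polynomial ℕ →+* ℤ := Polynomial.eval₂RingHom (Nat.castRingHom ℤ) (-1)

/-- kernel of the composite -/
noncomputable def K0 : Ideal (MvPolynomial (Fin 3) ℕ) where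
  carrier := {p | psi (phi p) = 0}
  add_mem' := by
    intro a b ha hb
    simp only [Set.mem_ofPred_eq] at *
    rw [map_add, map_add, ha, hb, add_zero]
  zero_mem' := by simp
  smul_mem' := by
    intro c x hx
    simp only [Set.mem_ofPred_eq] at *
    rw [smul_eq_mul, map_mul, map_mul, hx, mul_zero]

lemma K0_sub : Subtractive K0 := by
  intro x y hx hxy
  change psi (phi y) = 0
  have hx' : psi (phi x) = 0 := hx
  have hxy' : psi (phi (x + y)) = 0 := hxy
  rw [map_add, map_add, hx', zero_add] at hxy'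
  exact hxy'

/-- the polynomial `1 + X` -/
noncomputable def f : MvPolynomial (Fin 3) ℕ := 1 + X 0

lemma phi_X0 : phi (X 0) = Polynomial.X := by simp [phi]

lemma f_mem_K0 : f ∈ K0 := by
  change psi (phi f) = 0
  rw [f, map_add, phi_X0, map_add, map_one, map_one]
  simp [psi]

lemma scl_f_le : scl (Ideal.span {f}) ≤ K0 := by
  apply sInf_le
  refine ⟨K0_sub, ?_⟩
  rw [Ideal.span_le, Set.singleton_subset_iff]
  exact f_mem_K0

/-- the element `1 + 4 X ^ 3 + 3 X ^ 4` -/
noncomputable def h : MvPolynomial (Fin 3) ℕ := 1 + 4 * X 0 ^ 3 + 3 * X 0 ^ 4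

lemma h_mem : h ∈ scl (Ideal.span {f} * Ideal.span {f}) := by
  rw [scl, Ideal.mem_sInf]
  rintro K ⟨hK, hle⟩
  have h1 : f * f ∈ K := hle (Ideal.mul_mem_mul (Ideal.mem_span_singleton_self f)
    (Ideal.mem_span_singleton_self f))
  apply hK (2 * X 0 * (f * f)) h (K.mul_mem_left _ h1)
  have h2 : 2 * X 0 * (f * f) + h = (1 + 3 * X 0 ^ 2) * (f * f) := by
    simp only [f, h]; ring
  rw [h2]
  exact K.mul_mem_left _ h1

/-- a polynomial with natural coefficients, constant term `1`, no terms in degree one and two, and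
vanishing at `-1`, has a term of degree at least three -/
lemma deg_ge (p : Polynomial ℕ) (h0 : p.coeff 0 = 1) (h1 : p.coeff 1 = 0) (h2 : p.coeff 2 = 0)
    (hp : psi p = 0) : ∃ n, 3 ≤ n ∧ p.coeff n ≠ 0 := by
  by_contra hlt
  push Not at hlt
  have : p = 1 := by
    ext n
    rcases n with _ | _ | _ | n
    · simpa using h0
    · rw [h1]; simp [Polynomial.coeff_one]
    · rw [h2]; simp [Polynomial.coeff_one]
    · rw [hlt _ (by omega)]
      simp [Polynomial.coeff_one]
  rw [this] at hp
  simp at hp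

theorem result : ∃ (S₀ : Type) (_ : CommSemiring S₀) (_ : Nontrivial S₀), Zerosumfree S₀ ∧
    ∃ I J : Ideal (MvPolynomial (Fin 3) S₀), scl I * scl J ≠ scl (I * J) := by
  refine ⟨ℕ, inferInstance, inferInstance, fun a b h => by omega, Ideal.span {f},
    Ideal.span {f}, fun h1 => ?_⟩
  have h2 : h ∈ scl (Ideal.span {f}) * scl (Ideal.span {f}) := by
    rw [h1]; exact h_mem
  -- sums of products
  have key : ∀ x ∈ scl (Ideal.span {f}) * scl (Ideal.span {f}),
      (phi x).coeff 0 = 1 → (phi x).coeff 1 = 0 → (phi x).coeff 2 = 0 →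
        ∃ n, 6 ≤ n ∧ (phi x).coeff n ≠ 0 := by
    intro x hx
    refine Submodule.mul_induction_on hx ?_ ?_
    · intro p hp q hq
      have hp' : psi (phi p) = 0 := scl_f_le hp
      have hq' : psi (phi q) = 0 := scl_f_le hq
      rw [map_mul]
      set P := phi p
      set Q := phi q
      intro c0 c1 c2
      rw [Polynomial.mul_coeff_zero] at c0
      rw [Polynomial.coeff_mul, Finset.Nat.sum_antidiagonal_eq_sum_range_succ_mk] at c1 c2
      simp only [Finset.sum_range_succ, Finset.sum_range_zero, zero_add, Nat.sub_self,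
        Nat.sub_zero] at c1 c2
      have hP0 : P.coeff 0 = 1 := Nat.eq_one_of_mul_eq_one_right c0
      have hQ0 : Q.coeff 0 = 1 := Nat.eq_one_of_mul_eq_one_left c0
      simp only [hP0, hQ0, one_mul, mul_one] at c1 c2
      have hP1 : P.coeff 1 = 0 := by omega
      have hQ1 : Q.coeff 1 = 0 := by omega
      have hP2 : P.coeff 2 = 0 := by omega
      have hQ2 : Q.coeff 2 = 0 := by omega
      obtain ⟨m, hm, hm2⟩ := deg_ge P hP0 hP1 hP2 hp'
      obtain ⟨n, hn, hn2⟩ := deg_ge Q hQ0 hQ1 hQ2 hq'
      refine ⟨m + n, by omega, ?_⟩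
      rw [Polynomial.coeff_mul]
      intro hzero
      rw [Finset.sum_eq_zero_iff] at hzero
      have := hzero (m, n) (by simp)
      exact (mul_ne_zero hm2 hn2) this
    · intro x y ihx ihy c0 c1 c2
      rw [map_add, Polynomial.coeff_add] at c0 c1 c2
      have hcase : (phi x).coeff 0 = 1 ∨ (phi y).coeff 0 = 1 := by omega
      rw [map_add]
      rcases hcase with hc | hc
      · obtain ⟨n, hn, hn2⟩ := ihx hc (by omega) (by omega)
        exact ⟨n, hn, by rw [Polynomial.coeff_add]; omega⟩
      · obtain ⟨n, hn, hn2⟩ := ihy hc (by omega) (by omega)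
        exact ⟨n, hn, by rw [Polynomial.coeff_add]; omega⟩
  have hphi : phi h = 1 + 4 * Polynomial.X ^ 3 + 3 * Polynomial.X ^ 4 := by
    simp only [h, map_add, map_mul, map_pow, map_one, phi_X0, map_ofNat]
  have hcoeff : ∀ n, (phi h).coeff n = (if n = 0 then 1 else 0) + 4 * (if n = 3 then 1 else 0)
      + 3 * (if n = 4 then 1 else 0) := by
    intro n
    rw [hphi, Polynomial.coeff_add, Polynomial.coeff_add, Polynomial.coeff_one,
      Polynomial.coeff_ofNat_mul, Polynomial.coeff_ofNat_mul, Polynomial.coeff_X_pow,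
      Polynomial.coeff_X_pow]
  obtain ⟨n, hn, hn2⟩ := key h h2 (by rw [hcoeff]; norm_num) (by rw [hcoeff]; norm_num)
    (by rw [hcoeff]; norm_num)
  apply hn2
  rw [hcoeff, if_neg (by omega), if_neg (by omega), if_neg (by omega)]

end Pool.Agent.Results.MP_05a6d5_al.NotMultiplicative
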